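import Pool.Agent.Y6.N.Stm
import Pool.Agent.Y839.EK.Gal

/-!
NSK-GAL: existence for the truncated systems (with the dissipative term).
-/

open Set Filter Topology Metric
open scoped NNReal InnerProductSpace

set_option autoImplicit false

namespace Pool.Agent.Y239.NSK

open Pool.Agent.Y5 Pool.Agent.Y5.D Pool.Agent.Y6.N
open Pool.Agent.Y6.K (Kz lv)
open Pool.Agent.Y839.EK (ES ext ext_mem ext_not ext_contDiff quad_zero lin_zero)

variable {J : Type}

/-- the vector field -/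
noncomputable def XX (S : ℕ → ℝ) (o : J → ℕ) (σ : J → J) (τ : J → ℝ) (D : Ix J → Ix J → ℝ)
    (c : Ix J → Ix J → Ix J → ℝ) (F : Finset (Ix J)) (x : ES F) : ES F :=
  WithLp.toLp 2 fun i => Kz S o σ τ (ext F x) i - ∑ b ∈ F, D i b * ext F x b +
    ∑ p ∈ F ×ˢ F, c i p.1 p.2 * ext F x p.1 * ext F x p.2

lemma XX_contDiff (S : ℕ → ℝ) (o : J → ℕ) (σ : J → J) (τ : J → ℝ) (D : Ix J → Ix J → ℝ)
    (c : Ix J → Ix J → Ix J → ℝ) (F : Finset (Ix J)) : ContDiff ℝ 1 (XX S o σ τ D c F) := by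
  rw [contDiff_piLp]
  rintro ⟨i, hi⟩
  simp only [XX]
  refine (ContDiff.sub ?_ ?_).add ?_
  · rcases i with n | j
    · simp only [Kz]
      exact contDiff_const
    · simp only [Kz]
      exact contDiff_const.mul (ext_contDiff _)
  · refine ContDiff.sum fun b _ => ?_
    exact contDiff_const.mul (ext_contDiff _)
  · refine ContDiff.sum fun p _ => ?_
    exact (contDiff_const.mul (ext_contDiff _)).mul (ext_contDiff _)

/-- the dissipative part has a sign -/
lemma dis_nonneg {g : J → ℕ} {ℓ ρ E : ℕ → ℝ} {D : Ix J → Ix J → ℝ} (hD : Dis g ℓ ρ E D)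
    (F : Finset (Ix J)) (z : Ix J → ℝ) : 0 ≤ ∑ i ∈ F, (∑ b ∈ F, D i b * z b) * z i := by
  have h1 : ∑ i ∈ F, (∑ b ∈ F, D i b * z b) * z i = ∑ a ∈ F, ∑ b ∈ F, D a b * z a * z b := by
    refine Finset.sum_congr rfl fun a _ => ?_
    rw [Finset.sum_mul]
    refine Finset.sum_congr rfl fun b _ => ?_
    ring
  rw [h1]
  exact (Finset.sum_nonneg fun a _ => mul_nonneg (hD.ρ0 _) (sq_nonneg _)).trans (hD.coer F z)

theorem t_GAL2 : S_GAL2 := by
  intro J g o σ τ ℓ ρ E D c Θ S hR hD hanti hΘ N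
  classical
  have hfin : {i : Ix J | lv o i ≤ N}.Finite := by
    have h1 : {i : Ix J | lv o i ≤ N} ⊆ (Sum.inl '' Set.Iic N) ∪ (Sum.inr '' {j | o j ≤ N}) := by
      rintro (n | j) h
      · exact Or.inl ⟨n, h, rfl⟩
      · exact Or.inr ⟨j, h, rfl⟩
    exact (((Set.finite_Iic N).image _).union ((hR.fin N).image _)).subset h1
  set F : Finset (Ix J) := hfin.toFinset with hFdef
  have hmem : ∀ i, i ∈ F ↔ lv o i ≤ N := by
    intro i
    simp [hFdef]
  have hlip : ∀ R : ℝ, ∃ C : ℝ≥0, ∀ t ∈ Icc (0 : ℝ) Θ,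
      LipschitzOnWith C ((fun _ => XX S o σ τ D c F) t) (closedBall 0 R) := by
    intro R
    obtain ⟨C, hC⟩ := ((XX_contDiff S o σ τ D c F).contDiffOn
      (s := closedBall 0 R)).exists_lipschitzOnWith one_ne_zero (convex_closedBall 0 R)
        (isCompact_closedBall 0 R)
    exact ⟨C, fun _ _ => hC⟩
  have hen : ∀ t ∈ Icc (0 : ℝ) Θ, ∀ x : ES F,
      ⟪(fun _ : ℝ => XX S o σ τ D c F) t x, x⟫_ℝ ≤ 0 := by
    intro t _ x
    have h1 : ⟪XX S o σ τ D c F x, x⟫_ℝ = ∑ i ∈ F, (Kz S o σ τ (ext F x) i -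
        ∑ b ∈ F, D i b * ext F x b +
        ∑ p ∈ F ×ˢ F, c i p.1 p.2 * ext F x p.1 * ext F x p.2) * ext F x i := by
      rw [← Finset.sum_coe_sort, PiLp.inner_apply]
      refine Finset.sum_congr rfl fun i _ => ?_
      rw [ext_mem x i.2]
      simp [XX, mul_comm]
    have h2 : ∑ i ∈ F, (Kz S o σ τ (ext F x) i - ∑ b ∈ F, D i b * ext F x b +
        ∑ p ∈ F ×ˢ F, c i p.1 p.2 * ext F x p.1 * ext F x p.2) * ext F x i ≤ 0 := by
      simp only [add_mul, sub_mul, Finset.sum_add_distrib, Finset.sum_sub_distrib]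
      rw [quad_zero c hanti, lin_zero S o σ τ F hR.inv hR.grp hR.skew ?_ _]
      · have := dis_nonneg hD F (ext F x)
        linarith
      · intro j hj
        rw [hmem] at hj ⊢
        simpa [lv, hR.grp] using hj
    show ⟪XX S o σ τ D c F x, x⟫_ℝ ≤ 0
    rw [h1]
    exact h2
  set x0 : ES F := WithLp.toLp 2 fun i => if (i : Ix J) = Sum.inl 0 then 1 else 0 with hx0
  obtain ⟨x, hxi, hxd, hxe⟩ := H772R2.NSR.exists_global
    (fun _ => XX S o σ τ D c F) (T := Θ) hΘ.le hlip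
    (fun _ => continuousOn_const) x0 le_rfl hen
  have h0F : (Sum.inl 0 : Ix J) ∈ F := by rw [hmem]; simp [lv]
  have hx0n : ‖x0‖ ^ 2 = 1 := by
    rw [EuclideanSpace.norm_sq_eq]
    rw [Finset.sum_eq_single (⟨Sum.inl 0, h0F⟩ : ↥F)]
    · simp [hx0]
    · intro b _ hb
      have : (b : Ix J) ≠ Sum.inl 0 := fun h => hb (Subtype.ext h)
      simp [hx0, this]
    · simp
  refine ⟨fun i t => ext F (x t) i, ?_, ?_, ?_, ?_⟩
  · intro i hi t
    exact ext_not _ (by rw [hmem]; omega)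
  · intro i hi t ht
    have hiF : i ∈ F := (hmem i).2 hi
    have hq : qd c (fun a => ext F (x t) a) i =
        ∑ p ∈ F ×ˢ F, c i p.1 p.2 * ext F (x t) p.1 * ext F (x t) p.2 := by
      unfold qd
      refine tsum_eq_sum fun p hp => ?_
      rw [Finset.mem_product, not_and_or] at hp
      rcases hp with hp | hp
      · simp [ext_not _ hp]
      · simp [ext_not _ hp]
    have hl : Pool.Agent.Y6.N.lin D (fun a => ext F (x t) a) i =
        ∑ b ∈ F, D i b * ext F (x t) b := by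
      unfold Pool.Agent.Y6.N.lin
      refine tsum_eq_sum fun b hb => ?_
      simp [ext_not _ hb]
    rw [hq, hl]
    have h3 : HasDerivWithinAt (fun t => x t ⟨i, hiF⟩) (XX S o σ τ D c F (x t) ⟨i, hiF⟩)
        (Icc 0 Θ) t :=
      (PiLp.proj (𝕜 := ℝ) 2 (fun _ : ↥F => ℝ) ⟨i, hiF⟩).hasFDerivAt.comp_hasDerivWithinAt t
        (hxd t ht)
    have h4 : (fun t => ext F (x t) i) = fun t => x t ⟨i, hiF⟩ :=
      funext fun t => ext_mem _ hiF
    show HasDerivWithinAt (fun t => ext F (x t) i) _ _ _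
    rw [h4]
    exact h3
  · refine ⟨?_, ?_, ?_⟩
    · show ext F (x 0) (Sum.inl 0) = 1
      rw [hxi, ext_mem _ h0F]
      simp [hx0]
    · intro n
      show ext F (x 0) (Sum.inl (n + 1)) = 0
      rw [hxi]
      by_cases h : (Sum.inl (n + 1) : Ix J) ∈ F
      · rw [ext_mem _ h]
        simp [hx0]
      · exact ext_not _ h
    · intro w
      show ext F (x 0) (Sum.inr w) = 0
      rw [hxi]
      by_cases h : (Sum.inr w : Ix J) ∈ F
      · rw [ext_mem _ h]
        simp [hx0]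
      · exact ext_not _ h
  · intro t ht
    have h1 : ∑' a, ext F (x t) a ^ 2 = ∑ a ∈ F, ext F (x t) a ^ 2 := by
      refine tsum_eq_sum fun a ha => ?_
      rw [ext_not _ ha]
      simp
    have h2 : ∑ a ∈ F, ext F (x t) a ^ 2 = ‖x t‖ ^ 2 := by
      rw [EuclideanSpace.norm_sq_eq, ← Finset.sum_coe_sort]
      refine Finset.sum_congr rfl fun i _ => ?_
      rw [ext_mem _ i.2]
      simp
    show ∑' a, ext F (x t) a ^ 2 ≤ 1
    rw [h1, h2]
    have := hxe t ht
    rw [hx0n] at this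
    linarith

end Pool.Agent.Y239.NSK
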